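import Mathlib

section

/-!
Quadratic action on the centre of `P` propagates to every chief factor of `P`, when the two
commutator sets `[u, P]` and `[n, P]` are commutative.
-/

namespace Pool.Agent.MP_a5588a_al

open scoped commutatorElement

variable {E : Type*} [Group E]

/-- `B` is covered by no proper normal subgroup containing `[u,u,B]`, the cubes and `[B,P]`. -/
def Perf (P B : Subgroup E) (u : E) : Prop :=
  ∀ D : Subgroup E, D.Normal → (∀ b ∈ B, ⁅u, ⁅u, b⁆⁆ ∈ D) → (∀ b ∈ B, b ^ 3 ∈ D) →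
    (∀ b ∈ B, ∀ x ∈ P, ⁅b, x⁆ ∈ D) → B ≤ D

/-- `P`, `u`, `n` generate the group. -/
def Gen (P : Subgroup E) (u n : E) : Prop :=
  ∀ K : Subgroup E, P ≤ K → u ∈ K → n ∈ K → K = ⊤

/-- The commutators `[g, x]`, `x ∈ P`, commute with each other. -/
def ComAb (P : Subgroup E) (g : E) : Prop :=
  ∀ x ∈ P, ∀ y ∈ P, Commute ⁅g, x⁆ ⁅g, y⁆

theorem comm_mem_right {B : Subgroup E} [hB : B.Normal] (g : E) {b : E} (hb : b ∈ B) :
    ⁅g, b⁆ ∈ B := by
  rw [commutatorElement_def]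
  exact B.mul_mem (hB.conj_mem b hb g) (B.inv_mem hb)

theorem normal_of_gen {P B D : Subgroup E} [hB : B.Normal] {u n : E} (hg : Gen P u n)
    (hD : D ≤ B) (hP : ∀ g ∈ P, ∀ b ∈ B, ⁅g, b⁆ ∈ D) (hu : ∀ b ∈ B, ⁅u, b⁆ ∈ D)
    (hn : ∀ b ∈ B, ⁅n, b⁆ ∈ D) : D.Normal := by
  let K : Subgroup E :=
    { carrier := {g | ∀ b ∈ B, ⁅g, b⁆ ∈ D}
      one_mem' := by intro b _; simp
      mul_mem' := by
        intro g h hg hh b hb
        have e : ⁅g * h, b⁆ = ⁅g, ⁅h, b⁆⁆ * ⁅h, b⁆ * ⁅g, b⁆ := by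
          simp only [commutatorElement_def]; group
        rw [e]
        exact D.mul_mem (D.mul_mem (hg _ (comm_mem_right h hb)) (hh b hb)) (hg b hb)
      inv_mem' := by
        intro g hg b hb
        have e : ⁅g⁻¹, b⁆ = ⁅g, g⁻¹ * b * g⁆⁻¹ := by
          simp only [commutatorElement_def]; group
        rw [e]
        refine D.inv_mem (hg _ ?_)
        simpa using hB.conj_mem b hb g⁻¹ }
  have hK : K = ⊤ := hg K (fun g h => hP g h) hu hn
  refine ⟨fun d hd g => ?_⟩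
  have h1 : g ∈ K := hK ▸ Subgroup.mem_top g
  have e : g * d * g⁻¹ = ⁅g, d⁆ * d := by simp only [commutatorElement_def]; group
  rw [e]
  exact D.mul_mem (h1 d (hD hd)) hd

section core

variable {P B : Subgroup E} [hP : P.Normal] [hB : B.Normal]

theorem mulL (hBP : B ≤ P) (hc : ∀ z ∈ ⁅B, P⁆, ∀ y ∈ P, Commute z y)
    {b b' x : E} (hb : b ∈ B) (hb' : b' ∈ B) (hx : x ∈ P) :
    ⁅b * b', x⁆ = ⁅b', x⁆ * ⁅b, x⁆ := by
  have e : ⁅b * b', x⁆ = b * ⁅b', x⁆ * b⁻¹ * ⁅b, x⁆ := by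
    simp only [commutatorElement_def]; group
  rw [e, ← (hc _ (Subgroup.commutator_mem_commutator hb' hx) b (hBP hb)).eq]
  group

theorem mulR (hc : ∀ z ∈ ⁅B, P⁆, ∀ y ∈ P, Commute z y)
    {b x y : E} (hb : b ∈ B) (hx : x ∈ P) (hy : y ∈ P) :
    ⁅b, x * y⁆ = ⁅b, x⁆ * ⁅b, y⁆ := by
  have e : ⁅b, x * y⁆ = ⁅b, x⁆ * (x * ⁅b, y⁆ * x⁻¹) := by
    simp only [commutatorElement_def]; group
  rw [e, ← (hc _ (Subgroup.commutator_mem_commutator hb hy) x hx).eq]
  group

theorem der (hBP : B ≤ P) (hc : ∀ z ∈ ⁅B, P⁆, ∀ y ∈ P, Commute z y) {g : E} (hg : ComAb P g)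
    {b x : E} (hb : b ∈ B) (hx : x ∈ P) :
    ⁅g, ⁅b, x⁆⁆ = ⁅b, ⁅g, x⁆⁆ * ⁅⁅g, b⁆, x⁆ := by
  have hgb : ⁅g, b⁆ ∈ B := comm_mem_right g hb
  have hgx : ⁅g, x⁆ ∈ P := comm_mem_right g hx
  have e : ⁅g, ⁅b, x⁆⁆ = ⁅⁅g, b⁆ * b, ⁅g, x⁆ * x⁆ * ⁅b, x⁆⁻¹ := by
    simp only [commutatorElement_def]; group
  rw [e, mulL hBP hc hgb hb (P.mul_mem hgx hx), mulR hc hb hgx hx, mulR hc hgb hgx hx,
    (hg b (hBP hb) x hx).commutator_eq, one_mul]
  have h1 : ⁅⁅g, b⁆, x⁆ ∈ P := comm_mem_right _ hx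
  have h2 := (hc _ (Subgroup.commutator_mem_commutator hb hx) _ h1).eq
  rw [mul_assoc ⁅b, ⁅g, x⁆⁆, h2]
  group

theorem der1 (hBP : B ≤ P) (hc : ∀ z ∈ ⁅B, P⁆, ∀ y ∈ P, Commute z y) {g : E} (hg : ComAb P g)
    {b x : E} (hb : b ∈ B) (hx : x ∈ P) :
    ⁅g, ⁅⁅g, b⁆, x⁆⁆ = ⁅⁅g, ⁅g, b⁆⁆, x⁆ := by
  rw [der hBP hc hg (comm_mem_right g hb) hx, (hg b (hBP hb) x hx).commutator_eq, one_mul]

theorem der2 (hBP : B ≤ P) (hc : ∀ z ∈ ⁅B, P⁆, ∀ y ∈ P, Commute z y) {g : E} (hg : ComAb P g)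
    {b x : E} (hb : b ∈ B) (hx : x ∈ P) :
    ⁅g, ⁅b, ⁅g, x⁆⁆⁆ = ⁅b, ⁅g, ⁅g, x⁆⁆⁆ := by
  rw [der hBP hc hg hb (comm_mem_right g hx), (hg b (hBP hb) x hx).commutator_eq, mul_one]

theorem core [Finite E] {u n : E} (hgen : Gen P u n) (hBP : B ≤ P) (hu : ComAb P u)
    (hn : ComAb P n) (hc : ∀ z ∈ ⁅B, P⁆, ∀ y ∈ P, Commute z y)
    (h3 : ∀ z ∈ ⁅B, P⁆, z ^ 3 = 1) (hq : ∀ z ∈ ⁅B, P⁆, ⁅u, ⁅u, z⁆⁆ = 1)
    (hmin : ∀ D : Subgroup E, D.Normal → D ≤ ⁅B, P⁆ → D = ⊥ ∨ D = ⁅B, P⁆)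
    (hperf : Perf P B u) : ⁅B, P⁆ = ⊥ := by
  have cube : ∀ b ∈ B, ∀ x ∈ P, ⁅b ^ 3, x⁆ = 1 := by
    intro b hb x hx
    rw [pow_succ, pow_two, mulL hBP hc (B.mul_mem hb hb) hb hx, mulL hBP hc hb hb hx,
      ← h3 _ (Subgroup.commutator_mem_commutator hb hx), pow_succ', pow_two]
  -- step 2
  have step2 : ∀ x ∈ P, ∀ b ∈ B, ⁅⁅n, b⁆, ⁅u, ⁅u, x⁆⁆⁆ = 1 := by
    intro x hx
    have hux : ⁅u, x⁆ ∈ P := comm_mem_right u hx
    set y := ⁅u, ⁅u, x⁆⁆ with hy
    have hyP : y ∈ P := comm_mem_right u hux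
    have key : ∀ c ∈ B, ⁅c, y⁆ = ⁅u, ⁅c, ⁅u, x⁆⁆⁆ := fun c hc' =>
      (der2 hBP hc hu hc' hx).symm
    let Z : Subgroup E := Subgroup.closure {z | ∃ b ∈ B, z = ⁅⁅n, b⁆, y⁆}
    have hZC : Z ≤ ⁅B, P⁆ := by
      rw [Subgroup.closure_le]
      rintro z ⟨b, hb, rfl⟩
      exact Subgroup.commutator_mem_commutator (comm_mem_right n hb) hyP
    have hZu : Z ≤ Subgroup.centralizer {u} := by
      rw [Subgroup.closure_le]
      rintro z ⟨b, hb, rfl⟩
      rw [SetLike.mem_coe, Subgroup.mem_centralizer_singleton_iff]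
      have := hq _ (Subgroup.commutator_mem_commutator (comm_mem_right n hb) hux)
      rw [← key _ (comm_mem_right n hb), commutatorElement_eq_one_iff_mul_comm] at this
      exact this.symm
    have hZn : Z.Normal := by
      rw [← Subgroup.normalizer_eq_top_iff]
      refine hgen _ (fun g hg => ?_) ?_ ?_
      · refine Subgroup.mem_normalizer_fintype fun z hz => ?_
        rw [← (hc z (hZC hz) g hg).eq, mul_inv_cancel_right]
        exact hz
      · refine Subgroup.mem_normalizer_fintype fun z hz => ?_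
        have := Subgroup.mem_centralizer_singleton_iff.mp (hZu hz)
        rw [← this, mul_inv_cancel_right]
        exact hz
      · refine Subgroup.mem_normalizer_fintype fun z hz => ?_
        change n * z * n⁻¹ ∈ Z
        replace hz : z ∈ Z := hz
        induction hz using Subgroup.closure_induction with
        | mem z hz =>
          obtain ⟨b, hb, rfl⟩ := hz
          have e : n * ⁅⁅n, b⁆, y⁆ * n⁻¹ = ⁅n, ⁅⁅n, b⁆, y⁆⁆ * ⁅⁅n, b⁆, y⁆ := by
            rw [commutatorElement_def n ⁅⁅n, b⁆, y⁆]; group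
          rw [e, der1 hBP hc hn hb hyP]
          exact Z.mul_mem (Subgroup.subset_closure ⟨_, comm_mem_right n hb, rfl⟩)
            (Subgroup.subset_closure ⟨_, hb, rfl⟩)
        | one => simp
        | mul a b _ _ ha hb =>
          have e : n * (a * b) * n⁻¹ = (n * a * n⁻¹) * (n * b * n⁻¹) := by group
          rw [e]; exact Z.mul_mem ha hb
        | inv a _ ha =>
          have e : n * a⁻¹ * n⁻¹ = (n * a * n⁻¹)⁻¹ := by group
          rw [e]; exact Z.inv_mem ha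
    intro b hb
    rcases hmin Z hZn hZC with h | h
    · have : ⁅⁅n, b⁆, y⁆ ∈ Z := Subgroup.subset_closure ⟨_, hb, rfl⟩
      rw [h] at this
      exact Subgroup.mem_bot.mp this
    · rw [key _ (comm_mem_right n hb), commutatorElement_eq_one_iff_mul_comm]
      have h1 : ⁅⁅n, b⁆, ⁅u, x⁆⁆ ∈ Z := by
        rw [h]; exact Subgroup.commutator_mem_commutator (comm_mem_right n hb) hux
      exact (Subgroup.mem_centralizer_singleton_iff.mp (hZu h1)).symm
  -- step 3
  have step3 : ∀ b ∈ B, ∀ x ∈ P, ⁅b, ⁅u, ⁅u, x⁆⁆⁆ = 1 := by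
    let D : Subgroup E := B ⊓ Subgroup.centralizer {y | ∃ x ∈ P, y = ⁅u, ⁅u, x⁆⁆}
    have memD : ∀ d ∈ B, (∀ x ∈ P, ⁅d, ⁅u, ⁅u, x⁆⁆⁆ = 1) → d ∈ D := by
      intro d hd h
      refine ⟨hd, ?_⟩
      rintro y ⟨x, hx, rfl⟩
      exact (commutatorElement_eq_one_iff_mul_comm.mp (h x hx)).symm
    have hDP : ∀ b ∈ B, ∀ g ∈ P, ⁅b, g⁆ ∈ D := by
      intro b hb g hg
      have h1 := Subgroup.commutator_mem_commutator hb hg
      exact memD _ (Subgroup.commutator_le_left B P h1) fun x hx =>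
        (hc _ h1 _ (comm_mem_right u (comm_mem_right u hx))).commutator_eq
    have hDu : ∀ b ∈ B, ⁅u, b⁆ ∈ D := fun b hb =>
      memD _ (comm_mem_right u hb) fun x hx =>
        (hu b (hBP hb) _ (comm_mem_right u hx)).commutator_eq
    have hDn : D.Normal := by
      refine normal_of_gen (B := B) hgen inf_le_left (fun g hg b hb => ?_) hDu
        (fun b hb => memD _ (comm_mem_right n hb) fun x hx => step2 x hx b hb)
      rw [← commutatorElement_inv]
      exact D.inv_mem (hDP b hb g hg)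
    have hBD : B ≤ D := hperf D hDn (fun b hb => hDu _ (comm_mem_right u hb))
      (fun b hb => memD _ (B.pow_mem hb 3) fun x hx =>
        cube b hb _ (comm_mem_right u (comm_mem_right u hx))) hDP
    intro b hb x hx
    exact commutatorElement_eq_one_iff_mul_comm.mpr ((hBD hb).2 _ ⟨x, hx, rfl⟩).symm
  -- step 4
  have step4 : ∀ b ∈ B, ∀ x ∈ P, ⁅⁅u, ⁅u, b⁆⁆, x⁆ = 1 := by
    intro b hb x hx
    have h1 := hq _ (Subgroup.commutator_mem_commutator hb hx)
    have h2 : ⁅u, ⁅b, ⁅u, x⁆⁆⁆ = 1 := by rw [der2 hBP hc hu hb hx]; exact step3 b hb x hx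
    rw [der hBP hc hu hb hx] at h1
    have e : ∀ z w : E, ⁅u, z * w⁆ = ⁅u, z⁆ * (z * ⁅u, w⁆ * z⁻¹) := by
      intro z w; simp only [commutatorElement_def]; group
    rw [e, h2, one_mul, der1 hBP hc hu hb hx] at h1
    exact conj_eq_one_iff.mp h1
  have hBC : B ≤ B ⊓ Subgroup.centralizer (P : Set E) := by
    have memD : ∀ d ∈ B, (∀ x ∈ P, ⁅d, x⁆ = 1) → d ∈ B ⊓ Subgroup.centralizer (P : Set E) := by
      intro d hd h
      exact ⟨hd, fun x hx => (commutatorElement_eq_one_iff_mul_comm.mp (h x hx)).symm⟩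
    refine hperf _ inferInstance (fun b hb => memD _ (comm_mem_right u (comm_mem_right u hb))
      (step4 b hb)) (fun b hb => memD _ (B.pow_mem hb 3) (cube b hb)) (fun b hb g hg => ?_)
    have h1 := Subgroup.commutator_mem_commutator hb hg
    exact memD _ (Subgroup.commutator_le_left B P h1) fun x hx => (hc _ h1 _ hx).commutator_eq
  exact Subgroup.commutator_eq_bot_iff_le_centralizer.mpr (hBC.trans inf_le_right)

end core

end Pool.Agent.MP_a5588a_al

end

section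

namespace Pool.Agent.MP_a5588a_al

open scoped commutatorElement

variable {E : Type*} [Group E]

theorem perf_commutator [Finite E] {P B : Subgroup E} [hP : P.Normal] [hB : B.Normal] {u n : E}
    (hgen : Gen P u n) (hBP : B ≤ P) (hu : ComAb P u) (hn : ComAb P n) (hperf : Perf P B u) :
    Perf P ⁅B, P⁆ u := by
  intro D hD h1 h2 h3
  by_contra hne
  set C : Subgroup E := ⁅B, P⁆ with hC
  have hCn : C.Normal := inferInstance
  obtain ⟨C1, ⟨hC1n, hC1a, hC1b⟩, hmax⟩ :=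
    (wellFounded_gt (α := Subgroup E)).has_min {K | K.Normal ∧ C ⊓ D ≤ K ∧ K < C}
      ⟨C ⊓ D, inferInstance, le_rfl, lt_of_le_of_ne inf_le_left fun h => hne (inf_eq_left.mp h)⟩
  let π : E →* E ⧸ C1 := QuotientGroup.mk' C1
  have hπ : Function.Surjective π := QuotientGroup.mk'_surjective C1
  have hker : ∀ x, π x = 1 ↔ x ∈ C1 := fun x => QuotientGroup.eq_one_iff x
  have hP' : (P.map π).Normal := hP.map π hπ
  have hB' : (B.map π).Normal := hB.map π hπ
  have hCm : ⁅B.map π, P.map π⁆ = C.map π := (Subgroup.map_commutator B P π).symm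
  have hab : ∀ g, ComAb P g → ComAb (P.map π) (π g) := by
    rintro g hg _ ⟨x, hx, rfl⟩ _ ⟨y, hy, rfl⟩
    rw [← map_commutatorElement, ← map_commutatorElement]
    exact (hg x hx y hy).map π
  have key : ⁅B.map π, P.map π⁆ = ⊥ := by
    refine core (u := π u) (n := π n) ?_ (Subgroup.map_mono hBP) (hab u hu) (hab n hn) ?_ ?_ ?_ ?_ ?_
    · intro K hK hKu hKn
      have : K.comap π = ⊤ := hgen _ (Subgroup.map_le_iff_le_comap.mp hK) hKu hKn
      rw [eq_top_iff]
      intro y _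
      obtain ⟨x, rfl⟩ := hπ y
      have hx : x ∈ K.comap π := this ▸ Subgroup.mem_top x
      exact hx
    · rw [hCm]
      rintro _ ⟨c, hc, rfl⟩ _ ⟨x, hx, rfl⟩
      rw [← commutatorElement_eq_one_iff_commute, ← map_commutatorElement, hker]
      refine hC1a ⟨?_, h3 c hc x hx⟩
      rw [← commutatorElement_inv]
      exact C.inv_mem (comm_mem_right x hc)
    · rw [hCm]
      rintro _ ⟨c, hc, rfl⟩
      rw [← map_pow, hker]
      exact hC1a ⟨C.pow_mem hc 3, h2 c hc⟩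
    · rw [hCm]
      rintro _ ⟨c, hc, rfl⟩
      rw [← map_commutatorElement, ← map_commutatorElement, hker]
      exact hC1a ⟨comm_mem_right u (comm_mem_right u hc), h1 c hc⟩
    · rw [hCm]
      intro K hK hKC
      have hle : C1 ≤ K.comap π := fun x hx => by
        rw [Subgroup.mem_comap, (hker x).mpr hx]; exact K.one_mem
      have hle2 : K.comap π ≤ C := by
        intro x hx
        obtain ⟨c, hc, hcx⟩ := hKC hx
        have : c⁻¹ * x ∈ C1 := by rw [← hker, map_mul, map_inv, hcx, inv_mul_cancel]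
        have h4 := C.mul_mem hc (hC1b.le this)
        rwa [mul_inv_cancel_left] at h4
      rcases hle2.eq_or_lt with h | h
      · right
        rw [← h, Subgroup.map_comap_eq_self_of_surjective hπ]
      · left
        have h5 : ¬ (K.comap π > C1) := hmax _ ⟨hK.comap π, hC1a.trans hle, h⟩
        have h6 : K.comap π = C1 := (hle.eq_of_not_lt h5).symm
        rw [eq_bot_iff]
        intro y hy
        obtain ⟨x, rfl⟩ := hπ y
        have : x ∈ C1 := h6 ▸ hy
        exact (hker x).mpr this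
    · intro K hK k1 k2 k3
      rw [Subgroup.map_le_iff_le_comap]
      refine hperf _ (hK.comap π) (fun b hb => ?_) (fun b hb => ?_) (fun b hb x hx => ?_)
      · rw [Subgroup.mem_comap, map_commutatorElement, map_commutatorElement]
        exact k1 _ ⟨b, hb, rfl⟩
      · rw [Subgroup.mem_comap, map_pow]
        exact k2 _ ⟨b, hb, rfl⟩
      · rw [Subgroup.mem_comap, map_commutatorElement]
        exact k3 _ ⟨b, hb, rfl⟩ _ ⟨x, hx, rfl⟩
  rw [hCm] at key
  refine hC1b.not_ge fun c hc => (hker c).mp ?_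
  have : π c ∈ C.map π := ⟨c, hc, rfl⟩
  rw [key] at this
  exact Subgroup.mem_bot.mp this

theorem lcs_bot [Finite E] {P : Subgroup E} (hp : IsPGroup 3 P) :
    ∃ k, P.lowerCentralSeries k = ⊥ :=
  haveI : Fact (Nat.Prime 3) := ⟨Nat.prime_three⟩
  (Subgroup.isNilpotent_iff_lowerCentralSeries P).mp hp.isNilpotent

theorem perf_bot [Finite E] {P : Subgroup E} [hP : P.Normal] (hp : IsPGroup 3 P) {u n : E}
    (hgen : Gen P u n) (hu : ComAb P u) (hn : ComAb P n)
    (hZ : ∀ z ∈ P, (∀ x ∈ P, Commute z x) → ⁅u, ⁅u, z⁆⁆ = 1) (B : Subgroup E) :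
    B.Normal → B ≤ P → Perf P B u → B = ⊥ := by
  haveI : Fact (Nat.Prime 3) := ⟨Nat.prime_three⟩
  induction B using WellFoundedLT.induction with
  | ind B ih =>
    intro hB hBP hperf
    rcases (Subgroup.commutator_le_left B P).eq_or_lt with h | h
    · obtain ⟨k, hk⟩ := lcs_bot hp
      have : ∀ i, B ≤ P.lowerCentralSeries i := by
        intro i
        induction i with
        | zero => exact hBP
        | succ i ih =>
          rw [Subgroup.lowerCentralSeries_succ, ← h]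
          exact Subgroup.commutator_mono ih le_rfl
      exact eq_bot_iff.mpr (hk ▸ this k)
    · have hbot : ⁅B, P⁆ = ⊥ := ih _ h inferInstance
        ((Subgroup.commutator_le_left B P).trans hBP) (perf_commutator hgen hBP hu hn hperf)
      have hcom : ∀ b ∈ B, ∀ x ∈ P, Commute b x := by
        intro b hb x hx
        have := Subgroup.commutator_mem_commutator hb hx
        rw [hbot] at this
        exact commutatorElement_eq_one_iff_commute.mp (Subgroup.mem_bot.mp this)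
      let D : Subgroup E :=
        { carrier := {y | ∃ b ∈ B, y = b ^ 3}
          one_mem' := ⟨1, B.one_mem, by simp⟩
          mul_mem' := by
            rintro _ _ ⟨a, ha, rfl⟩ ⟨b, hb, rfl⟩
            exact ⟨a * b, B.mul_mem ha hb, ((hcom a ha b (hBP hb)).mul_pow 3).symm⟩
          inv_mem' := by
            rintro _ ⟨a, ha, rfl⟩
            exact ⟨a⁻¹, B.inv_mem ha, by simp⟩ }
      have hDn : D.Normal := ⟨by
        rintro _ ⟨a, ha, rfl⟩ g
        exact ⟨g * a * g⁻¹, hB.conj_mem a ha g, by simp⟩⟩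
      have hBD : B ≤ D := hperf D hDn
        (fun b hb => by rw [hZ b (hBP hb) (hcom b hb)]; exact D.one_mem)
        (fun b hb => ⟨b, hb, rfl⟩)
        (fun b hb x hx => by rw [(hcom b hb x hx).commutator_eq]; exact D.one_mem)
      have hroot : ∀ k : ℕ, ∀ b ∈ B, ∃ c ∈ B, b = c ^ 3 ^ k := by
        intro k
        induction k with
        | zero => intro b hb; exact ⟨b, hb, by simp⟩
        | succ k ih =>
          intro b hb
          obtain ⟨c, hc, rfl⟩ := ih b hb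
          obtain ⟨d, hd, rfl⟩ := hBD hc
          exact ⟨d, hd, by rw [← pow_mul, pow_succ']⟩
      obtain ⟨k, hk⟩ := IsPGroup.iff_card.mp hp
      rw [eq_bot_iff]
      intro b hb
      obtain ⟨c, hc, rfl⟩ := hroot k b hb
      have : (⟨c, hBP hc⟩ : P) ^ Nat.card P = 1 := pow_card_eq_one'
      rw [hk] at this
      exact congrArg Subtype.val this

end Pool.Agent.MP_a5588a_al

end

section

namespace Pool.Agent.MP_a5588a_al

open scoped commutatorElement

theorem prod_orbits {X A : Type*} [DecidableEq X] [CommMonoid A] (σ : X → X)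
    (h3 : ∀ x, σ (σ (σ x)) = x) (F : X → A) (hF : ∀ x, F x * F (σ x) * F (σ (σ x)) = 1)
    (s : Finset X) : (∀ x ∈ s, σ x ∈ s) → (∀ x ∈ s, σ x ≠ x) → ∏ x ∈ s, F x = 1 := by
  induction s using Finset.strongInduction with
  | H s ih =>
    intro hs hfix
    rcases s.eq_empty_or_nonempty with rfl | ⟨x, hx⟩
    · simp
    have h1 : σ x ≠ x := hfix x hx
    have h2 : σ (σ x) ≠ σ x := hfix _ (hs x hx)
    have h4 : σ (σ x) ≠ x := fun h => h1 (by have := h3 x; rw [h] at this; exact this)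
    have hsub : ({x, σ x, σ (σ x)} : Finset X) ⊆ s := by
      intro y hy
      simp only [Finset.mem_insert, Finset.mem_singleton] at hy
      rcases hy with rfl | rfl | rfl
      · exact hx
      · exact hs _ hx
      · exact hs _ (hs _ hx)
    rw [← Finset.prod_sdiff hsub, ih _ (Finset.sdiff_ssubset hsub (by simp)), one_mul,
      Finset.prod_insert (by simp [h1.symm, h4.symm]), Finset.prod_insert (by simp [h2.symm]),
      Finset.prod_singleton, ← mul_assoc, hF]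
    · intro y hy
      simp only [Finset.mem_sdiff, Finset.mem_insert, Finset.mem_singleton, not_or] at hy ⊢
      refine ⟨hs y hy.1, fun h => hy.2.2.2 ?_, fun h => hy.2.1 ?_, fun h => hy.2.2.1 ?_⟩
      · rw [← h, h3]
      · rw [← h3 y, h, h3]
      · rw [← h3 y, h, h3]
    · intro y hy
      exact hfix y (Finset.mem_sdiff.mp hy).1

variable {E A : Type*} [Group E] [CommGroup A]

/-- Elements preserving `θ` on the normal subgroup `P`. -/
def stab (P : Subgroup E) [hP : P.Normal] (θ : E → A) : Subgroup E where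
  carrier := {g | ∀ x ∈ P, θ (g⁻¹ * x * g) = θ x}
  one_mem' := by intro x _; simp
  mul_mem' := by
    intro g h hg hh x hx
    have e : (g * h)⁻¹ * x * (g * h) = h⁻¹ * (g⁻¹ * x * g) * h := by group
    rw [e, hh _ (by simpa using hP.conj_mem x hx g⁻¹), hg x hx]
  inv_mem' := by
    intro g hg x hx
    have := hg (g * x * g⁻¹) (hP.conj_mem x hx g)
    rw [inv_inv, ← this]
    congr 1; group

theorem local_E [Finite E] {P : Subgroup E} [hP : P.Normal] (hp : IsPGroup 3 P) {u n : E}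
    (hgen : Gen P u n) (hu : ComAb P u) (hn : ComAb P n)
    (hZ : ∀ z ∈ P, (∀ x ∈ P, Commute z x) → ⁅u, ⁅u, z⁆⁆ = 1) (hu3 : u ^ 3 ∈ P)
    (θ : E → A) (hmul : ∀ x ∈ P, ∀ y ∈ P, θ (x * y) = θ x * θ y)
    (huY : u ∈ stab P θ) (hSE : ∀ g, g⁻¹ * u * g ∈ stab P θ → g ∈ stab P θ) (g : E) :
    g ∈ stab P θ := by
  classical
  set Y := stab P θ with hY
  have conjP : ∀ g : E, ∀ x ∈ P, g⁻¹ * x * g ∈ P := fun g x hx => by
    simpa using hP.conj_mem x hx g⁻¹
  have h1 : θ 1 = 1 := by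
    have := hmul 1 P.one_mem 1 P.one_mem
    rw [mul_one] at this
    exact left_eq_mul.mp this
  have hinv : ∀ x ∈ P, θ x⁻¹ = (θ x)⁻¹ := fun x hx => by
    rw [eq_inv_iff_mul_eq_one, ← hmul _ (P.inv_mem hx) _ hx, inv_mul_cancel, h1]
  have hPY : P ≤ Y := by
    intro g hg x hx
    rw [hmul _ (P.mul_mem (P.inv_mem hg) hx) _ hg, hmul _ (P.inv_mem hg) _ hx, hinv g hg,
      mul_comm, ← mul_assoc, mul_inv_cancel, one_mul]
  have cmul : ∀ g : E, ∀ x ∈ P, ∀ y ∈ P,
      θ (g⁻¹ * (x * y) * g) = θ (g⁻¹ * x * g) * θ (g⁻¹ * y * g) := by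
    intro g x hx y hy
    rw [← hmul _ (conjP g x hx) _ (conjP g y hy)]
    congr 1; group
  have ccube : ∀ g : E, ∀ x ∈ P, θ (g⁻¹ * x ^ 3 * g) = θ (g⁻¹ * x * g) ^ 3 := by
    intro g x hx
    rw [pow_succ, pow_two, cmul g _ (P.mul_mem hx hx) _ hx, cmul g _ hx _ hx, pow_succ, pow_two]
  have cube : ∀ x ∈ P, θ (x ^ 3) = θ x ^ 3 := fun x hx => by simpa using ccube 1 x hx
  have hau : ∀ x ∈ P, θ ⁅u, x⁆ = 1 := by
    intro x hx
    have := Y.inv_mem huY x hx
    rw [inv_inv] at this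
    rw [commutatorElement_def, hmul _ (hP.conj_mem x hx u) _ (P.inv_mem hx), this, hinv x hx,
      mul_inv_cancel]
  let K : Subgroup E :=
    { carrier := {x | x ∈ P ∧ ∀ g : E, θ (g⁻¹ * x * g) = θ x}
      one_mem' := ⟨P.one_mem, by simp⟩
      mul_mem' := by
        rintro x y ⟨hx, hx'⟩ ⟨hy, hy'⟩
        exact ⟨P.mul_mem hx hy, fun g => by rw [cmul g x hx y hy, hx', hy', hmul x hx y hy]⟩
      inv_mem' := by
        rintro x ⟨hx, hx'⟩
        refine ⟨P.inv_mem hx, fun g => ?_⟩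
        rw [hinv x hx, ← hx' g, ← hinv _ (conjP g x hx)]
        congr 1; group }
  -- the averaging step
  have avg : ∀ B : Subgroup E, B.Normal → B ≤ P → (∀ b ∈ B, ⁅u, ⁅u, b⁆⁆ ∈ K) →
      (∀ b ∈ B, b ^ 3 ∈ K) → B ≤ K := by
    intro B hB hBP hq h3
    letI : Fintype (E ⧸ Y) := Fintype.ofFinite _
    let t : E ⧸ Y → E → A := fun c x => θ (c.out⁻¹ * x * c.out)
    have ht : ∀ g : E, ∀ x ∈ P, t (g : E ⧸ Y) x = θ (g⁻¹ * x * g) := by
      intro g x hx
      obtain ⟨y, hy⟩ := QuotientGroup.mk_out_eq_mul Y g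
      have := y.2 _ (conjP g x hx)
      simp only [t, hy]
      rw [← this]
      congr 1; group
    have hsm : ∀ h : E, ∀ c : E ⧸ Y, ∀ x ∈ P, t (h • c) x = t c (h⁻¹ * x * h) := by
      intro h c x hx
      induction c using QuotientGroup.induction_on with
      | H g =>
        rw [MulAction.Quotient.smul_mk, ht _ _ hx, ht _ _ (conjP h x hx), smul_eq_mul]
        congr 1; group
    let σ : E ⧸ Y → E ⧸ Y := fun c => u⁻¹ • c
    have σ3 : ∀ c, σ (σ (σ c)) = c := by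
      intro c
      induction c using QuotientGroup.induction_on with
      | H g =>
        simp only [σ, MulAction.Quotient.smul_mk, smul_eq_mul]
        rw [QuotientGroup.eq]
        have := hPY (conjP g _ hu3)
        have e : (u⁻¹ * (u⁻¹ * (u⁻¹ * g)))⁻¹ * g = g⁻¹ * (u * u * u) * g := by
          simp only [mul_inv_rev, inv_inv, mul_assoc]
        rwa [e, ← pow_two, ← pow_succ]
    let c0 : E ⧸ Y := ((1 : E) : E ⧸ Y)
    have σ0 : σ c0 = c0 := by
      simp only [σ, c0, MulAction.Quotient.smul_mk, smul_eq_mul]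
      rw [QuotientGroup.eq]
      simpa using huY
    have hs : ∀ c ∈ Finset.univ.erase c0, σ c ∈ Finset.univ.erase c0 := by
      intro c hc
      simp only [Finset.mem_erase, Finset.mem_univ, and_true] at hc ⊢
      intro h
      exact hc (by rw [← σ3 c, h, σ0, σ0])
    have hfix : ∀ c ∈ Finset.univ.erase c0, σ c ≠ c := by
      intro c hc h
      simp only [Finset.mem_erase, Finset.mem_univ, and_true] at hc
      induction c using QuotientGroup.induction_on with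
      | H g =>
        simp only [σ, MulAction.Quotient.smul_mk, smul_eq_mul] at h
        rw [QuotientGroup.eq] at h
        refine hc ?_
        simp only [c0]
        rw [QuotientGroup.eq, mul_one]
        refine Y.inv_mem (hSE g ?_)
        convert h using 1
        group
    have hm : 3 ∣ (Finset.univ.erase c0).card := by
      have := prod_orbits σ σ3 (fun _ => Multiplicative.ofAdd (1 : ZMod 3))
        (fun _ => by decide) _ hs hfix
      rw [Finset.prod_const, ← ofAdd_nsmul, ofAdd_eq_one, nsmul_one] at this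
      exact (ZMod.natCast_eq_zero_iff _ 3).mp this
    have hprod : ∀ b ∈ B, ∏ c, t c b = θ b ^ ((Finset.univ.erase c0).card + 1) := by
      intro b hb
      have hbP := hBP hb
      have hab : ⁅u, b⁆ ∈ B := comm_mem_right u hb
      have haab : ⁅u, ⁅u, b⁆⁆ ∈ B := comm_mem_right u hab
      have := prod_orbits σ σ3 (fun c => t c b / θ b) (fun c => by
        simp only [σ]
        rw [hsm _ (u⁻¹ • c) _ hbP, hsm _ _ _ hbP, hsm _ _ _ (conjP _ _ hbP)]
        have e1 : u⁻¹⁻¹ * b * u⁻¹ = ⁅u, b⁆ * b := by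
          simp only [commutatorElement_def]; group
        have e2 : u⁻¹⁻¹ * (⁅u, b⁆ * b) * u⁻¹ = ⁅u, ⁅u, b⁆⁆ * (⁅u, b⁆ * (⁅u, b⁆ * b)) := by
          simp only [commutatorElement_def]; group
        rw [e1, e2]
        simp only [t]
        have k1 := (hq b hb).2 c.out
        have k2 := (h3 b hb).2 c.out
        have k3 := (h3 _ hab).2 c.out
        rw [hau _ (hBP hab)] at k1
        rw [ccube _ _ hbP, cube _ hbP] at k2
        rw [ccube _ _ (hBP hab), cube _ (hBP hab), hau _ hbP, one_pow] at k3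
        rw [cmul _ _ (hBP haab) _ (P.mul_mem (hBP hab) (P.mul_mem (hBP hab) hbP)),
          cmul _ _ (hBP hab) _ (P.mul_mem (hBP hab) hbP), cmul _ _ (hBP hab) _ hbP, k1]
        generalize θ (c.out⁻¹ * b * c.out) = p at *
        generalize θ (c.out⁻¹ * ⁅u, b⁆ * c.out) = q at *
        generalize θ b = r at *
        have : p / r * (q * p / r) * (1 * (q * (q * p)) / r) = p ^ 3 * q ^ 3 / r ^ 3 := by
          simp only [pow_succ, pow_zero, div_eq_mul_inv, mul_inv, one_mul]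
          ac_rfl
        rw [this, k2, k3, mul_one, div_self']) _ hs hfix
      rw [Finset.prod_div_distrib, Finset.prod_const, div_eq_one] at this
      rw [← Finset.mul_prod_erase _ _ (Finset.mem_univ c0), this, pow_succ', ht 1 b hbP]
      simp
    intro b hb
    refine ⟨hBP hb, fun g => ?_⟩
    have hb' : g⁻¹ * b * g ∈ B := by simpa using hB.conj_mem b hb g⁻¹
    have e1 : ∏ c, t c (g⁻¹ * b * g) = ∏ c, t c b := by
      rw [← Equiv.prod_comp (MulAction.toPerm g) (fun c => t c b)]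
      exact Finset.prod_congr rfl fun c _ => (hsm g c b (hBP hb)).symm
    rw [hprod _ hb', hprod _ hb] at e1
    have e2 := (h3 b hb).2 g
    rw [ccube _ _ (hBP hb), cube _ (hBP hb)] at e2
    obtain ⟨k, hk⟩ := hm
    rw [hk, pow_succ, pow_succ, pow_mul, pow_mul, e2] at e1
    exact mul_left_cancel e1
  -- a minimal normal subgroup not inside `K` is perfect
  by_cases hPK : P ≤ K
  · exact fun x hx => (hPK hx).2 g
  exfalso
  obtain ⟨B, ⟨hBn, hBP, hBK⟩, hmin⟩ :=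
    (wellFounded_lt (α := Subgroup E)).has_min {B | B.Normal ∧ B ≤ P ∧ ¬ B ≤ K} ⟨P, hP, le_rfl, hPK⟩
  have hperf : Perf P B u := by
    intro D hD k1 k2 _
    by_contra hne
    have hlt : B ⊓ D < B := lt_of_le_of_ne inf_le_left fun h => hne (inf_eq_left.mp h)
    have hK : B ⊓ D ≤ K := by
      by_contra h
      exact hmin _ ⟨inferInstance, inf_le_left.trans hBP, h⟩ hlt
    exact hBK (avg B hBn hBP
      (fun b hb => hK ⟨comm_mem_right u (comm_mem_right u hb), k1 b hb⟩)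
      (fun b hb => hK ⟨B.pow_mem hb 3, k2 b hb⟩))
  exact hBK (perf_bot hp hgen hu hn hZ B hBn hBP hperf ▸ bot_le)

end Pool.Agent.MP_a5588a_al

end

section

namespace Pool.Agent.MP_a5588a_al

open scoped commutatorElement

variable {G : Type*} [Group G]

theorem local_G [Finite G] {A : Type*} [CommGroup A] {P : Subgroup G} (hp : IsPGroup 3 P)
    {u n : G} (huN : u ∈ Subgroup.normalizer (P : Set G)) (hnN : n ∈ Subgroup.normalizer (P : Set G))
    (hu : ComAb P u) (hn : ComAb P n)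
    (hZ : ∀ z ∈ P, (∀ x ∈ P, Commute z x) → ⁅u, ⁅u, z⁆⁆ = 1) (hu3 : u ^ 3 ∈ P)
    (θ : G → A) (hmul : ∀ x ∈ P, ∀ y ∈ P, θ (x * y) = θ x * θ y)
    (huY : ∀ x ∈ P, θ (u⁻¹ * x * u) = θ x)
    (hSE : ∀ g ∈ Subgroup.normalizer (P : Set G),
      (∀ x ∈ P, θ ((g⁻¹ * u * g)⁻¹ * x * (g⁻¹ * u * g)) = θ x) → ∀ x ∈ P, θ (g⁻¹ * x * g) = θ x) :
    ∀ x ∈ P, θ (n⁻¹ * x * n) = θ x := by
  let E : Subgroup G := P ⊔ Subgroup.closure {u, n}
  have hPE : P ≤ E := le_sup_left
  have huE : u ∈ E := Subgroup.mem_sup_right (Subgroup.subset_closure (by simp))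
  have hnE : n ∈ E := Subgroup.mem_sup_right (Subgroup.subset_closure (by simp))
  have hEN : E ≤ Subgroup.normalizer (P : Set G) := by
    refine sup_le Subgroup.le_normalizer ((Subgroup.closure_le _).mpr ?_)
    rintro y (rfl | rfl)
    · exact huN
    · exact hnN
  have hP' : (P.subgroupOf E).Normal := (Subgroup.normal_subgroupOf_iff_le_normalizer hPE).mpr hEN
  have hab : ∀ g : E, ComAb P g → ComAb (P.subgroupOf E) g := by
    intro g hg x hx y hy
    exact Subtype.ext (hg x hx y hy).eq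
  have := local_E (P := P.subgroupOf E) (u := ⟨u, huE⟩) (n := ⟨n, hnE⟩) hp.comap_subtype ?_
    (hab _ hu) (hab _ hn) ?_ hu3 (fun x => θ x) (fun x hx y hy => hmul x hx y hy)
    (fun x hx => huY x hx)
    (fun g hg x hx => hSE g (hEN g.2) (fun y hy => hg ⟨y, hPE hy⟩ hy) x hx) ⟨n, hnE⟩
  · exact fun x hx => this ⟨x, hPE hx⟩ hx
  · intro K h1 h2 h3
    have : E ≤ K.map E.subtype := by
      refine sup_le (fun x hx => ⟨⟨x, hPE hx⟩, h1 hx, rfl⟩) ((Subgroup.closure_le _).mpr ?_)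
      rintro y (rfl | rfl)
      · exact ⟨_, h2, rfl⟩
      · exact ⟨_, h3, rfl⟩
    rw [eq_top_iff]
    intro x _
    obtain ⟨y, hy, hyx⟩ := this x.2
    rwa [← Subtype.ext hyx]
  · intro z hz h
    exact Subtype.ext (hZ z hz fun x hx => congrArg Subtype.val (h ⟨x, hPE hx⟩ hx).eq)

/-- Elementwise commutativity. -/
def Ab (A : Subgroup G) : Prop := ∀ x ∈ A, ∀ y ∈ A, Commute x y

/-- `A` is an abelian subgroup of `S` of largest order. -/
def IsMaxAb (S A : Subgroup G) : Prop :=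
  A ≤ S ∧ Ab A ∧ ∀ B : Subgroup G, B ≤ S → Ab B → Nat.card B ≤ Nat.card A

/-- The Thompson subgroup of `S`. -/
def JJ (S : Subgroup G) : Subgroup G := sSup {A | IsMaxAb S A}

/-- `[S, A]` is abelian for each abelian `A ≤ S` of largest order. -/
def Hyp (S : Subgroup G) : Prop := ∀ A, IsMaxAb S A → Ab ⁅S, A⁆

theorem ab_sup {M C : Subgroup G} (hM : Ab M) (hC : Ab C) (h : ∀ m ∈ M, ∀ c ∈ C, Commute m c) :
    Ab (M ⊔ C) := by
  have h1 : ∀ x ∈ M ⊔ C, (∀ m ∈ M, Commute m x) ∧ ∀ c ∈ C, Commute c x := by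
    intro x hx
    have : M ⊔ C ≤ Subgroup.centralizer (M : Set G) ⊓ Subgroup.centralizer (C : Set G) :=
      sup_le (fun m hm => ⟨fun y hy => hM y hy m hm, fun y hy => (h m hm y hy).symm⟩)
        (fun c hc => ⟨fun y hy => h y hy c hc, fun y hy => hC y hy c hc⟩)
    exact this hx
  intro x hx y hy
  have : M ⊔ C ≤ Subgroup.centralizer {y} :=
    sup_le (fun m hm => Subgroup.mem_centralizer_singleton_iff.mpr ((h1 y hy).1 m hm))
      (fun c hc => Subgroup.mem_centralizer_singleton_iff.mpr ((h1 y hy).2 c hc))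
  exact Subgroup.mem_centralizer_singleton_iff.mp (this hx)

theorem nil_pick [Finite G] {S Z M : Subgroup G} (hS : IsPGroup 3 S) (hZ : Z ≤ S)
    (hn : ∀ z ∈ Z, ∀ s ∈ S, ⁅z, s⁆ ∈ Z) (h : ¬ Z ≤ M) :
    ∃ x ∈ Z, x ∉ M ∧ ∀ s ∈ S, ⁅x, s⁆ ∈ M := by
  by_contra hcon
  push Not at hcon
  let f : ℕ → Subgroup G := fun i => Nat.rec Z (fun _ W => ⁅W, S⁆) i
  have f1 : ∀ i, f i ≤ Z := by
    intro i
    induction i with
    | zero => exact le_rfl
    | succ i ih => exact Subgroup.commutator_le.mpr fun a ha s hs => hn a (ih ha) s hs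
  have f2 : ∀ i, f i ≤ S.lowerCentralSeries i := by
    intro i
    induction i with
    | zero => exact hZ
    | succ i ih => exact Subgroup.commutator_mono ih le_rfl
  have f3 : ∀ i, ¬ f i ≤ M := by
    intro i
    induction i with
    | zero => exact h
    | succ i ih =>
      intro hle
      refine ih fun x hx => ?_
      by_contra hxM
      obtain ⟨s, hs, hs'⟩ := hcon x (f1 i hx) hxM
      exact hs' (hle (Subgroup.commutator_mem_commutator hx hs))
  obtain ⟨k, hk⟩ := lcs_bot hS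
  exact f3 k ((f2 k).trans (hk ▸ bot_le))

theorem mem_norm_of_comm [Finite G] {M : Subgroup G} {x : G} (h : ∀ s ∈ M, ⁅x, s⁆ ∈ M) :
    x ∈ Subgroup.normalizer (M : Set G) := by
  refine Subgroup.mem_normalizer_fintype fun s hs => ?_
  have e : x * s * x⁻¹ = ⁅x, s⁆ * s := by simp only [commutatorElement_def]; group
  rw [e]
  exact M.mul_mem (h s hs) hs

theorem comm_mem_of_norm {M : Subgroup G} {x s : G} (h : x ∈ Subgroup.normalizer (M : Set G))
    (hs : s ∈ M) : ⁅x, s⁆ ∈ M :=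
  M.mul_mem ((Subgroup.mem_normalizer_iff.mp h s).mp hs) (M.inv_mem hs)

theorem comm_mem_of_norm' {M : Subgroup G} {x s : G} (h : x ∈ Subgroup.normalizer (M : Set G))
    (hs : s ∈ M) : ⁅s, x⁆ ∈ M := by
  rw [← commutatorElement_inv]; exact M.inv_mem (comm_mem_of_norm h hs)

/-- Thompson replacement. -/
theorem replace [Finite G] {S Z A : Subgroup G} (hS : IsPGroup 3 S) (hZS : Z ≤ S) (hZ : Ab Z)
    (hA : IsMaxAb S A) (hAZ : A ≤ Subgroup.normalizer (Z : Set G))
    (hn : ¬ Z ≤ Subgroup.normalizer (A : Set G)) :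
    ∃ A', IsMaxAb S A' ∧ A ⊓ Z < A' ⊓ Z ∧ A' ≤ Subgroup.normalizer (A : Set G) := by
  obtain ⟨x, hxZ, hxN, hx⟩ := nil_pick (S := S ⊓ Subgroup.normalizer (Z : Set G)) hS.to_inf_left
    (le_inf hZS Subgroup.le_normalizer) (fun z hz s hs => comm_mem_of_norm' hs.2 hz) hn
  have hxa : ∀ a ∈ A, ⁅x, a⁆ ∈ Z := fun a ha => comm_mem_of_norm' (hAZ ha) hxZ
  let M : Subgroup G := Subgroup.closure {y | ∃ a ∈ A, y = ⁅x, a⁆}
  have hMm : ∀ a ∈ A, ⁅x, a⁆ ∈ M := fun a ha => Subgroup.subset_closure ⟨a, ha, rfl⟩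
  have hMZ : M ≤ Z := by
    rw [Subgroup.closure_le]; rintro _ ⟨a, ha, rfl⟩; exact hxa a ha
  have hMN : M ≤ Subgroup.normalizer (A : Set G) := by
    rw [Subgroup.closure_le]; rintro _ ⟨a, ha, rfl⟩; exact hx a ⟨hA.1 ha, hAZ ha⟩
  let C : Subgroup G := A ⊓ Subgroup.centralizer (M : Set G)
  have hab : Ab (M ⊔ C) := ab_sup (fun a ha b hb => hZ a (hMZ ha) b (hMZ hb))
    (fun a ha b hb => hA.2.1 a ha.1 b hb.1) (fun m hm c hc => hc.2 m hm)
  have hcard : Nat.card A ≤ Nat.card (M ⊔ C : Subgroup G) := by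
    let ρ : A → A := fun a => (a : A ⧸ C.subgroupOf A).out
    have hρ : ∀ a : A, ((ρ a : G))⁻¹ * a ∈ C := fun a => by
      have : (ρ a)⁻¹ * a ∈ C.subgroupOf A :=
        QuotientGroup.eq.mp (QuotientGroup.out_eq' (a : A ⧸ C.subgroupOf A))
      exact this
    refine Nat.card_le_card_of_injective (fun a : A => (⟨⁅x, (ρ a : G)⁆ * ((ρ a : G)⁻¹ * a),
      Subgroup.mul_mem_sup (hMm _ (ρ a).2) (hρ a)⟩ : (M ⊔ C : Subgroup G))) ?_
    intro a b hab'
    have h1 : ⁅x, (ρ a : G)⁆ * ((ρ a : G)⁻¹ * a) = ⁅x, (ρ b : G)⁆ * ((ρ b : G)⁻¹ * b) :=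
      congrArg Subtype.val hab'
    set r : G := ((ρ a : A) : G) with hr
    set r' : G := ((ρ b : A) : G) with hr'
    have hrA : r ∈ A := (ρ a).2
    have hrA' : r' ∈ A := (ρ b).2
    have hdA : r'⁻¹ * r ∈ A := A.mul_mem (A.inv_mem hrA') hrA
    have h2 : ⁅x, r'⁻¹ * r⁆ ∈ A := by
      have e : ⁅x, r'⁻¹ * r⁆ = r'⁻¹ * (⁅x, r'⁆⁻¹ * (⁅x, r⁆ * (r⁻¹ * a)) * (r⁻¹ * a)⁻¹) * r' := by
        simp only [commutatorElement_def]; group
      rw [e, h1, inv_mul_cancel_left]
      exact A.mul_mem (A.mul_mem (A.inv_mem hrA') (A.mul_mem (hρ b).1 (A.inv_mem (hρ a).1))) hrA'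
    have hdC : r'⁻¹ * r ∈ C := by
      refine ⟨hdA, ?_⟩
      generalize r'⁻¹ * r = d at hdA h2
      have : M ≤ Subgroup.centralizer {d} := by
        rw [Subgroup.closure_le]
        rintro _ ⟨c, hc, rfl⟩
        rw [SetLike.mem_coe, Subgroup.mem_centralizer_singleton_iff]
        have e1 : ⁅x, c * d⁆ = ⁅x, c⁆ * (c * ⁅x, d⁆ * c⁻¹) := by
          simp only [commutatorElement_def]; group
        have e2 : ⁅x, d * c⁆ = ⁅x, d⁆ * (d * ⁅x, c⁆ * d⁻¹) := by
          simp only [commutatorElement_def]; group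
        rw [(hA.2.1 c hc _ h2).eq, mul_inv_cancel_right, (hA.2.1 c hc d hdA).eq, e2,
          (hZ _ (hxa c hc) _ (hxa d hdA)).eq, mul_right_inj] at e1
        rw [← e1]
        simp only [e1]
        exact (mul_inv_eq_iff_eq_mul.mp e1).symm
      exact fun m hm => Subgroup.mem_centralizer_singleton_iff.mp (this hm)
    have h3 : ρ b = ρ a := by
      have : ((ρ b : A) : A ⧸ C.subgroupOf A) = (ρ a : A) := QuotientGroup.eq.mpr hdC
      simp only [ρ, QuotientGroup.out_eq'] at this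
      simp only [ρ, this]
    have h4 : r' = r := congrArg Subtype.val h3
    rw [h4, mul_right_inj, mul_right_inj] at h1
    exact Subtype.ext h1
  refine ⟨M ⊔ C, ⟨sup_le (hMZ.trans hZS) (inf_le_left.trans hA.1), hab,
    fun B hB hB' => (hA.2.2 B hB hB').trans hcard⟩, ?_,
    sup_le hMN (inf_le_left.trans Subgroup.le_normalizer)⟩
  refine lt_of_le_of_ne (fun y hy => ⟨Subgroup.mem_sup_right
    ⟨hy.1, fun m hm => hZ m (hMZ hm) y hy.2⟩, hy.2⟩) fun h => hxN (mem_norm_of_comm fun a ha => ?_)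
  have : ⁅x, a⁆ ∈ (M ⊔ C) ⊓ Z := ⟨Subgroup.mem_sup_left (hMm a ha), hxa a ha⟩
  rw [← h] at this
  exact this.1

theorem exists_u [Finite G] {S P : Subgroup G} (hS : IsPGroup 3 S) (hH : Hyp S) (hPS : P ≤ S)
    (hJ : ¬ JJ S ≤ P) :
    ∃ u ∈ S, u ∈ Subgroup.normalizer (P : Set G) ∧ u ∉ P ∧ u ^ 3 ∈ P ∧ ComAb P u ∧
      ∀ z ∈ P, (∀ x ∈ P, Commute z x) → ⁅u, ⁅u, z⁆⁆ = 1 := by
  have key : ∃ W : Subgroup G, W ≤ S ∧ W ≤ Subgroup.normalizer (P : Set G) ∧ ¬ W ≤ P ∧
      ∀ u ∈ W, ComAb P u ∧ ∀ z ∈ P, (∀ x ∈ P, Commute z x) → ⁅u, ⁅u, z⁆⁆ = 1 := by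
    by_cases h1 : ∃ A, IsMaxAb S A ∧ ¬ ⁅S, A⁆ ≤ P
    · obtain ⟨A, hA, hAP⟩ := h1
      have hle : ⁅S, A⁆ ≤ S := (Subgroup.commutator_mono le_rfl hA.1).trans S.commutator_le_self
      have hnn : ∀ z ∈ ⁅S, A⁆, ∀ s ∈ S, ⁅z, s⁆ ∈ ⁅S, A⁆ := fun z hz s hs =>
        comm_mem_of_norm' (Subgroup.normalizer_commutator_ge_left S A hs) hz
      obtain ⟨x, hx, hxP, hx'⟩ := nil_pick hS hle hnn hAP
      refine ⟨⁅S, A⁆ ⊓ Subgroup.normalizer (P : Set G), inf_le_left.trans hle, inf_le_right,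
        fun h => hxP (h ⟨hx, mem_norm_of_comm fun s hs => hx' s (hPS hs)⟩), fun u hu => ⟨?_, ?_⟩⟩
      · exact fun a ha b hb => hH A hA _ (hnn u hu.1 a (hPS ha)) _ (hnn u hu.1 b (hPS hb))
      · exact fun z hz _ => (hH A hA _ hu.1 _ (hnn u hu.1 z (hPS hz))).commutator_eq
    push Not at h1
    let Z : Subgroup G := P ⊓ Subgroup.centralizer (P : Set G)
    have hZab : Ab Z := fun a ha b hb => hb.2 a ha.1
    have hZS : Z ≤ S := inf_le_left.trans hPS
    have hcm : ∀ A, IsMaxAb S A → ∀ a ∈ A, ∀ s ∈ S, ⁅a, s⁆ ∈ ⁅S, A⁆ := by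
      intro A hA a ha s hs
      rw [← commutatorElement_inv]
      exact Subgroup.inv_mem _ (Subgroup.commutator_mem_commutator hs ha)
    have hAN : ∀ A, IsMaxAb S A → A ≤ Subgroup.normalizer (P : Set G) := fun A hA a ha =>
      mem_norm_of_comm fun s hs => h1 A hA (hcm A hA a ha s (hPS hs))
    have hAZ : ∀ A, IsMaxAb S A → A ≤ Subgroup.normalizer (Z : Set G) := by
      intro A hA a ha
      refine Subgroup.mem_normalizer_fintype fun z hz => ⟨?_, fun y hy => ?_⟩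
      · exact (Subgroup.mem_normalizer_iff.mp (hAN A hA ha) z).mp hz.1
      · have := hz.2 _ ((Subgroup.mem_normalizer_iff''.mp (hAN A hA ha) y).mp hy)
        calc y * (a * z * a⁻¹) = a * (a⁻¹ * y * a * z) * a⁻¹ := by group
          _ = a * (z * (a⁻¹ * y * a)) * a⁻¹ := by rw [this]
          _ = a * z * a⁻¹ * y := by group
    suffices h : ∃ A, IsMaxAb S A ∧ ¬ A ≤ P ∧ ∀ u ∈ A, ∀ z ∈ Z, ⁅u, ⁅u, z⁆⁆ = 1 by
      obtain ⟨A, hA, hAP, hq⟩ := h
      exact ⟨A, hA.1, hAN A hA, hAP, fun u hu => ⟨fun a ha b hb =>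
        hH A hA _ (hcm A hA u hu a (hPS ha)) _ (hcm A hA u hu b (hPS hb)),
        fun z hz hz' => hq u hu z ⟨hz, fun y hy => (hz' y hy).symm⟩⟩⟩
    by_cases h2 : ∃ A, IsMaxAb S A ∧ ¬ A ≤ Subgroup.centralizer (Z : Set G)
    · obtain ⟨A0, hA0, hA0'⟩ := h2
      obtain ⟨_, ⟨A, hA, hAc, rfl⟩, hmax⟩ := (wellFounded_gt (α := Subgroup G)).has_min
        {W | ∃ A, IsMaxAb S A ∧ ¬ A ≤ Subgroup.centralizer (Z : Set G) ∧ W = A ⊓ Z}
        ⟨_, A0, hA0, hA0', rfl⟩
      have hn : Z ≤ Subgroup.normalizer (A : Set G) := by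
        by_contra hn
        obtain ⟨A', hA', hlt, hN⟩ := replace hS hZS hZab hA (hAZ A hA) hn
        have hc : A' ≤ Subgroup.centralizer (Z : Set G) := by
          by_contra hc
          exact hmax _ ⟨A', hA', hc, rfl⟩ hlt
        have : A' = Z ⊔ A' := Subgroup.eq_of_le_of_card_ge le_sup_right
          (hA'.2.2 _ (sup_le hZS hA'.1) (ab_sup hZab hA'.2.1 fun z hz a ha => hc ha z hz))
        exact hn ((le_sup_left.trans this.ge).trans hN)
      refine ⟨A, hA, fun h => hAc fun a ha z hz => (hz.2 a (h ha)).symm, fun u hu z hz => ?_⟩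
      exact (hA.2.1 u hu _ (comm_mem_of_norm' (hn hz) hu)).commutator_eq
    · push Not at h2
      obtain ⟨A, hA, hAP⟩ : ∃ A, IsMaxAb S A ∧ ¬ A ≤ P := by
        by_contra h
        push Not at h
        exact hJ (sSup_le h)
      refine ⟨A, hA, hAP, fun u hu z hz => ?_⟩
      rw [commutatorElement_eq_one_iff_mul_comm.mpr (h2 A hA hu z hz).symm,
        commutatorElement_one_right]
  obtain ⟨W, hWS, hWN, hWP, hW⟩ := key
  obtain ⟨v, hvW, hvP⟩ := SetLike.not_le_iff_exists.mp hWP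
  obtain ⟨k, hk⟩ := hS ⟨v, hWS hvW⟩
  have hk' : v ^ 3 ^ k ∈ P := by
    have : v ^ 3 ^ k = 1 := congrArg Subtype.val hk
    rw [this]; exact P.one_mem
  have : ∃ j, v ^ 3 ^ j ∉ P ∧ v ^ 3 ^ (j + 1) ∈ P := by
    by_contra h
    push Not at h
    have : ∀ j, v ^ 3 ^ j ∉ P := by
      intro j
      induction j with
      | zero => simpa using hvP
      | succ j ih => exact h j ih
    exact this k hk'
  obtain ⟨j, hj, hj'⟩ := this
  have hm := W.pow_mem hvW (3 ^ j)
  exact ⟨_, hWS hm, hWN hm, hj, by rwa [← pow_mul, ← pow_succ], hW _ hm⟩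

end Pool.Agent.MP_a5588a_al

end

section

namespace Pool.Agent.MP_a5588a_al

open scoped commutatorElement Pointwise

variable {G G' : Type*} [Group G] [Group G']

theorem ab_map {A : Subgroup G} (h : Ab A) (f : G →* G') : Ab (A.map f) := by
  rintro _ ⟨x, hx, rfl⟩ _ ⟨y, hy, rfl⟩
  exact (h x hx y hy).map f

theorem ab_comap {A : Subgroup G'} (h : Ab A) {f : G →* G'} (hf : Function.Injective f) :
    Ab (A.comap f) := fun x hx y hy => hf (by rw [map_mul, map_mul]; exact (h _ hx _ hy).eq)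

theorem maxAb_map {S A : Subgroup G} (h : IsMaxAb S A) {f : G →* G'}
    (hf : Function.Injective f) : IsMaxAb (S.map f) (A.map f) := by
  refine ⟨Subgroup.map_mono h.1, ab_map h.2.1 f, fun B hB hB' => ?_⟩
  have e : (B.comap f).map f = B :=
    Subgroup.map_comap_eq_self (hB.trans (Subgroup.map_le_range f S))
  rw [← e, Subgroup.card_map_of_injective hf, Subgroup.card_map_of_injective hf]
  refine h.2.2 _ ?_ (ab_comap hB' hf)
  rw [← Subgroup.comap_map_eq_self_of_injective hf S]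
  exact Subgroup.comap_mono hB

theorem maxAb_comap {S : Subgroup G} {f : G →* G'} (hf : Function.Injective f) {A : Subgroup G'}
    (h : IsMaxAb (S.map f) A) : IsMaxAb S (A.comap f) ∧ (A.comap f).map f = A := by
  have e : (A.comap f).map f = A :=
    Subgroup.map_comap_eq_self (h.1.trans (Subgroup.map_le_range f S))
  refine ⟨⟨?_, ab_comap h.2.1 hf, fun B hB hB' => ?_⟩, e⟩
  · rw [← Subgroup.comap_map_eq_self_of_injective hf S]
    exact Subgroup.comap_mono h.1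
  · have := h.2.2 _ (Subgroup.map_mono hB) (ab_map hB' f)
    rwa [← e, Subgroup.card_map_of_injective hf, Subgroup.card_map_of_injective hf] at this

theorem JJ_map (S : Subgroup G) {f : G →* G'} (hf : Function.Injective f) :
    JJ (S.map f) = (JJ S).map f := by
  apply le_antisymm
  · refine sSup_le fun A hA => ?_
    obtain ⟨h1, h2⟩ := maxAb_comap hf hA
    rw [← h2]
    exact Subgroup.map_mono (le_sSup h1)
  · rw [Subgroup.map_le_iff_le_comap]
    refine sSup_le fun A hA => ?_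
    rw [← Subgroup.map_le_iff_le_comap]
    exact le_sSup (maxAb_map hA hf)

theorem hyp_map {S : Subgroup G} (h : Hyp S) {f : G →* G'} (hf : Function.Injective f) :
    Hyp (S.map f) := by
  intro A hA
  obtain ⟨h1, h2⟩ := maxAb_comap hf hA
  rw [← h2, ← Subgroup.map_commutator]
  exact ab_map (h _ h1) f

theorem JJ_le (S : Subgroup G) : JJ S ≤ S := sSup_le fun _ hA => hA.1

/-- The conjugate `g T g⁻¹`. -/
def cj (T : Subgroup G) (g : G) : Subgroup G := T.map (MulAut.conj g).toMonoidHom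

theorem cj_inj (g : G) : Function.Injective (MulAut.conj g).toMonoidHom := (MulAut.conj g).injective

theorem mem_cj {T : Subgroup G} {g x : G} : x ∈ cj T g ↔ g⁻¹ * x * g ∈ T := by
  constructor
  · rintro ⟨y, hy, rfl⟩
    simpa [mul_assoc] using hy
  · intro h
    exact ⟨_, h, by simp [mul_assoc]⟩

theorem card_cj (T : Subgroup G) (g : G) : Nat.card (cj T g) = Nat.card T :=
  Subgroup.card_map_of_injective (cj_inj g)

theorem JJ_cj (T : Subgroup G) (g : G) : JJ (cj T g) = cj (JJ T) g := JJ_map T (cj_inj g)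

theorem JJ_eq [Finite G] (T : Subgroup G) {g h : G} (hle : JJ (cj T g) ≤ cj T h) :
    JJ (cj T g) = JJ (cj T h) := by
  refine Subgroup.eq_of_le_of_card_ge (sSup_le fun A hA => le_sSup ?_)
    (by rw [JJ_cj, JJ_cj, card_cj, card_cj])
  refine ⟨(le_sSup hA).trans hle, hA.2.1, fun B hB hB' => ?_⟩
  rw [← card_cj B (g * h⁻¹)]
  refine hA.2.2 _ (fun x hx => ?_) (ab_map hB' _)
  have := mem_cj.mp (hB (mem_cj.mp hx))
  rw [mem_cj]
  convert this using 1
  group

theorem sylow_conj [Finite G] {Y R Q : Subgroup G} (hRY : R ≤ Y) (hR : IsPGroup 3 R)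
    (hmax : ∀ R' : Subgroup G, R' ≤ Y → IsPGroup 3 R' → R ≤ R' → R' = R) (hQY : Q ≤ Y)
    (hQ : IsPGroup 3 Q) : ∃ y ∈ Y, ∀ x ∈ Q, y⁻¹ * x * y ∈ R := by
  have : Fact (Nat.Prime 3) := ⟨Nat.prime_three⟩
  let R0 : Sylow 3 Y := ⟨R.subgroupOf Y, hR.comap_subtype, fun {Q'} hQ' hle => by
    have := hmax (Q'.map Y.subtype) (Subgroup.map_subtype_le _) (hQ'.map _)
      (fun x hx => ⟨⟨x, hRY hx⟩, hle hx, rfl⟩)
    rw [← this, Subgroup.subgroupOf,
      Subgroup.comap_map_eq_self_of_injective Y.subtype_injective]⟩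
  obtain ⟨Q1, hQ1⟩ := (hQ.comap_subtype (K := Y)).exists_le_sylow
  obtain ⟨y, hy⟩ := MulAction.exists_smul_eq Y R0 Q1
  refine ⟨y, y.2, fun x hx => ?_⟩
  have h1 : (⟨x, hQY hx⟩ : Y) ∈ (Q1 : Subgroup Y) := hQ1 hx
  rw [← hy, Sylow.coe_subgroup_smul, Subgroup.mem_pointwise_smul_iff_inv_smul_mem] at h1
  have h2 : ((MulAut.conj y)⁻¹ • (⟨x, hQY hx⟩ : Y) : Y) ∈ R.subgroupOf Y := h1
  simpa [Subgroup.mem_subgroupOf] using h2

theorem fusion [Finite G] {A : Type*} [CommGroup A] (T : Sylow 3 G) (hH : Hyp (T : Subgroup G))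
    (θ₀ : G → A) (hmul : ∀ x ∈ (T : Subgroup G), ∀ y ∈ (T : Subgroup G), θ₀ (x * y) = θ₀ x * θ₀ y)
    (hinv : ∀ h ∈ Subgroup.normalizer (JJ (T : Subgroup G) : Set G), ∀ x ∈ (T : Subgroup G),
      θ₀ (h⁻¹ * x * h) = θ₀ x) (P : Subgroup G) :
    ∀ g₁ g₂ : G, P ≤ cj T g₁ → P ≤ cj T g₂ → ∀ x ∈ P, θ₀ (g₁⁻¹ * x * g₁) = θ₀ (g₂⁻¹ * x * g₂) := by
  induction P using WellFoundedGT.induction with
  | ind P ih =>
  intro g₁ g₂ h₁ h₂
  have hcjp : ∀ g : G, IsPGroup 3 (cj (T : Subgroup G) g) := fun g => T.isPGroup'.map _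
  have hp : IsPGroup 3 P := (hcjp g₁).to_le h₁
  set N := Subgroup.normalizer (P : Set G) with hN
  have hNP : ∀ g ∈ N, ∀ x ∈ P, g⁻¹ * x * g ∈ P := fun g hg x hx =>
    (Subgroup.mem_normalizer_iff''.mp hg x).mp hx
  obtain ⟨R, ⟨hPR, hRN, hR⟩, hRmax⟩ := (wellFounded_gt (α := Subgroup G)).has_min
    {R | P ≤ R ∧ R ≤ N ∧ IsPGroup 3 R} ⟨P, le_rfl, Subgroup.le_normalizer, hp⟩
  have hmax : ∀ R' : Subgroup G, R' ≤ N → IsPGroup 3 R' → R ≤ R' → R' = R := fun R' a b c =>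
    (c.eq_of_not_lt (hRmax R' ⟨hPR.trans c, a, b⟩)).symm
  obtain ⟨g₀, -, hg₀⟩ := sylow_conj (Y := ⊤) (R := T) (Q := R) le_top T.isPGroup'
    (fun R' _ b c => T.is_maximal' b c) le_top hR
  have hRS : R ≤ cj T g₀ := fun x hx => mem_cj.mpr (hg₀ x hx)
  have hPS : P ≤ cj T g₀ := hPR.trans hRS
  let θ : G → A := fun x => θ₀ (g₀⁻¹ * x * g₀)
  suffices h : ∀ g, P ≤ cj T g → ∀ x ∈ P, θ₀ (g⁻¹ * x * g) = θ x by
    intro x hx; rw [h g₁ h₁ x hx, h g₂ h₂ x hx]
  by_cases hJ : JJ (cj T g₀) ≤ P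
  · intro g hg x hx
    have e := JJ_eq (T : Subgroup G) (hJ.trans hg)
    rw [JJ_cj, JJ_cj] at e
    have hh : g₀⁻¹ * g ∈ Subgroup.normalizer (JJ (T : Subgroup G) : Set G) := by
      refine Subgroup.mem_normalizer_fintype fun y hy => ?_
      have : g * y * g⁻¹ ∈ cj (JJ (T : Subgroup G)) g := mem_cj.mpr (by simpa [mul_assoc] using hy)
      rw [← e, mem_cj] at this
      have e3 : g₀⁻¹ * g * y * (g₀⁻¹ * g)⁻¹ = g₀⁻¹ * (g * y * g⁻¹) * g₀ := by group
      rw [e3]; exact this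
    have := hinv _ hh _ (mem_cj.mp (hPS hx))
    simp only [θ]
    rw [← this]
    congr 1; group
  obtain ⟨u, huS, huN, huP, hu3, huab, huZ⟩ := exists_u (hcjp g₀) (hyp_map hH (cj_inj g₀)) hPS hJ
  have tmul : ∀ x ∈ cj T g₀, ∀ y ∈ cj T g₀, θ (x * y) = θ x * θ y := by
    intro x hx y hy
    simp only [θ]
    rw [← hmul _ (mem_cj.mp hx) _ (mem_cj.mp hy)]
    congr 1; group
  have tconj : ∀ s ∈ cj T g₀, ∀ x ∈ cj T g₀, θ (s⁻¹ * x * s) = θ x := by
    intro s hs x hx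
    have h1 := tmul _ hs _ (Subgroup.mul_mem _ (Subgroup.mul_mem _ (Subgroup.inv_mem _ hs) hx) hs)
    rw [← mul_assoc, mul_inv_cancel_left, tmul _ hx _ hs, mul_comm] at h1
    exact (mul_left_cancel h1).symm
  let Y : Subgroup G :=
    { carrier := {g | g ∈ N ∧ ∀ x ∈ P, θ (g⁻¹ * x * g) = θ x}
      one_mem' := ⟨N.one_mem, by simp⟩
      mul_mem' := by
        rintro g h ⟨hg, hg'⟩ ⟨hh, hh'⟩
        refine ⟨N.mul_mem hg hh, fun x hx => ?_⟩
        have e : (g * h)⁻¹ * x * (g * h) = h⁻¹ * (g⁻¹ * x * g) * h := by group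
        rw [e, hh' _ (hNP g hg x hx), hg' x hx]
      inv_mem' := by
        rintro g ⟨hg, hg'⟩
        refine ⟨N.inv_mem hg, fun x hx => ?_⟩
        rw [← hg' _ (hNP _ (N.inv_mem hg) x hx)]
        congr 1; group }
  have hYN : Y ≤ N := fun g hg => hg.1
  have hRY : R ≤ Y := fun r hr => ⟨hRN hr, fun x hx => tconj r (hRS hr) x (hPS hx)⟩
  have hSE : ∀ g ∈ N, g⁻¹ * u * g ∈ Y → g ∈ Y := by
    intro g hg hgu
    have hQ : P ⊔ Subgroup.zpowers (g⁻¹ * u * g) ≤ cj T (g⁻¹ * g₀) := by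
      refine sup_le (fun x hx => ?_) ((Subgroup.zpowers_le).mpr ?_)
      · have := mem_cj.mp (hPS (hNP _ (N.inv_mem hg) x hx))
        rw [mem_cj]; convert this using 1; group
      · have := mem_cj.mp huS
        rw [mem_cj]; convert this using 1; group
    have hlt : P < P ⊔ Subgroup.zpowers (g⁻¹ * u * g) := by
      refine lt_of_le_of_ne le_sup_left fun h => huP ?_
      have : g⁻¹ * u * g ∈ P := h ▸ Subgroup.mem_sup_right (Subgroup.mem_zpowers _)
      exact (Subgroup.mem_normalizer_iff''.mp hg u).mpr this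
    obtain ⟨y, hyY, hy⟩ := sylow_conj hRY hR (fun R' a b c => hmax R' (a.trans hYN) b c)
      (sup_le (hPR.trans hRY) ((Subgroup.zpowers_le).mpr hgu)) ((hcjp _).to_le hQ)
    have hQ2 : P ⊔ Subgroup.zpowers (g⁻¹ * u * g) ≤ cj T (y * g₀) := fun x hx => by
      have := hg₀ _ (hy x hx)
      rw [mem_cj]; convert this using 1; group
    have h3 := ih _ hlt _ _ hQ hQ2
    rw [← Y.inv_mem_iff]
    refine ⟨N.inv_mem hg, fun x hx => ?_⟩
    rw [← hyY.2 x hx]
    have := h3 x (Subgroup.mem_sup_left hx)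
    simp only [θ]
    convert this using 2 <;> group
  have hNY : N ≤ Y := by
    intro g hg
    have hn : g⁻¹ * u * g ∈ N := N.mul_mem (N.mul_mem (N.inv_mem hg) huN) hg
    refine hSE g hg ⟨hn, local_G hp huN hn huab ?_ huZ hu3 θ
      (fun x hx y hy => tmul x (hPS hx) y (hPS hy)) (fun x hx => tconj u huS x (hPS hx))
      (fun k hk h => (hSE k hk ⟨N.mul_mem (N.mul_mem (N.inv_mem hk) huN) hk, h⟩).2)⟩
    intro x hx y hy
    have e : ∀ z : G, ⁅g⁻¹ * u * g, z⁆ = (MulAut.conj g⁻¹) ⁅u, g⁻¹⁻¹ * z * g⁻¹⁆ := by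
      intro z; simp only [commutatorElement_def, MulAut.conj_apply]; group
    rw [e, e]
    exact (huab _ (hNP _ (N.inv_mem hg) x hx) _ (hNP _ (N.inv_mem hg) y hy)).map _
  intro g hg x hx
  have hnle : ¬ cj T g ≤ P := by
    intro h
    have : cj (T : Subgroup G) g = cj T g₀ :=
      Subgroup.eq_of_le_of_card_ge (h.trans hPS) (by rw [card_cj, card_cj])
    exact huP (h (this ▸ huS))
  obtain ⟨v, hv, hvP, hv'⟩ := nil_pick (hcjp g) le_rfl
    (fun z hz s hs => (cj T g).commutator_le_self (Subgroup.commutator_mem_commutator hz hs)) hnle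
  have hlt : P < cj T g ⊓ N := by
    refine lt_of_le_of_ne (le_inf hg Subgroup.le_normalizer) fun h => hvP ?_
    rw [h]
    exact ⟨hv, mem_norm_of_comm fun s hs => hv' s (hg hs)⟩
  obtain ⟨y, hyN, hy⟩ := sylow_conj hRN hR hmax (Q := cj T g ⊓ N) inf_le_right
    (hcjp g).to_inf_left
  have hQ2 : cj T g ⊓ N ≤ cj T (y * g₀) := fun x hx => by
    have := hg₀ _ (hy x hx)
    rw [mem_cj]; convert this using 1; group
  rw [ih _ hlt _ _ inf_le_left hQ2 x (hlt.le hx), ← (hNY hyN).2 x hx]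
  simp only [θ]
  congr 1; group

theorem transfer [Finite G] (T : Sylow 3 G) (hH : Hyp (T : Subgroup G)) :
    (T : Subgroup G) ⊓ commutator G = (T : Subgroup G) ⊓
      ⁅Subgroup.normalizer (JJ (T : Subgroup G) : Set G),
        Subgroup.normalizer (JJ (T : Subgroup G) : Set G)⁆ := by
  classical
  have : Fact (Nat.Prime 3) := ⟨Nat.prime_three⟩
  set H := Subgroup.normalizer (JJ (T : Subgroup G) : Set G) with hHdef
  refine le_antisymm (le_inf inf_le_left ?_)
    (inf_le_inf_left _ (Subgroup.commutator_mono le_top le_top))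
  have hTH : (T : Subgroup G) ≤ H := by
    intro t ht
    have e : cj (T : Subgroup G) t = T := by
      ext x
      rw [mem_cj, mul_assoc, Subgroup.mul_mem_cancel_left _ (Subgroup.inv_mem _ ht),
        Subgroup.mul_mem_cancel_right _ ht]
    have e2 := JJ_cj (T : Subgroup G) t
    rw [e] at e2
    refine Subgroup.mem_normalizer_fintype fun y hy => ?_
    have : t * y * t⁻¹ ∈ cj (JJ (T : Subgroup G)) t := mem_cj.mpr (by simpa [mul_assoc] using hy)
    rwa [← e2] at this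
  let θ₀ : G → Abelianization H := fun x => if h : x ∈ H then Abelianization.of ⟨x, h⟩ else 1
  have hθ : ∀ x (h : x ∈ H), θ₀ x = Abelianization.of ⟨x, h⟩ := fun x h => dif_pos h
  have hmul : ∀ x ∈ H, ∀ y ∈ H, θ₀ (x * y) = θ₀ x * θ₀ y := by
    intro x hx y hy
    rw [hθ _ hx, hθ _ hy, hθ _ (H.mul_mem hx hy), ← map_mul]; rfl
  have hone : θ₀ 1 = 1 := by rw [hθ _ H.one_mem]; exact map_one _
  have key := fusion T hH θ₀ (fun x hx y hy => hmul x (hTH hx) y (hTH hy)) (fun h hh x hx => by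
    rw [hmul _ (H.mul_mem (H.inv_mem hh) (hTH hx)) _ hh, hmul _ (H.inv_mem hh) _ (hTH hx),
      mul_comm, ← mul_assoc, ← hmul _ hh _ (H.inv_mem hh), mul_inv_cancel, hone, one_mul])
  rw [inf_comm, Subgroup.commutator_inf_eq_focalSubgroup, Subgroup.focalSubgroup_def,
    Subgroup.closure_le]
  rintro _ ⟨hc, x, hx, u, rfl⟩
  have hw : u * x⁻¹ * u⁻¹ ∈ (T : Subgroup G) := by
    have := Subgroup.mul_mem _ (Subgroup.inv_mem _ hx) hc
    convert this using 1
    rw [commutatorElement_def]; group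
  have h1 := key (Subgroup.zpowers x⁻¹) u⁻¹ 1
    ((Subgroup.zpowers_le).mpr (mem_cj.mpr (by simpa using hw)))
    ((Subgroup.zpowers_le).mpr (mem_cj.mpr (by simpa using hx))) x⁻¹ (Subgroup.mem_zpowers _)
  have h2 : θ₀ ⁅x, u⁆ = 1 := by
    have e : ⁅x, u⁆ = x * (u⁻¹⁻¹ * x⁻¹ * u⁻¹) := by rw [commutatorElement_def]; group
    rw [e, hmul _ (hTH hx) _ (hTH (by simpa using hw)), h1, inv_one, one_mul, mul_one,
      ← hmul _ (hTH hx) _ (H.inv_mem (hTH hx)), mul_inv_cancel, hone]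
  rw [hθ _ (hTH hc), ← MonoidHom.mem_ker, Abelianization.ker_of] at h2
  rw [← Subgroup.map_subtype_commutator]
  exact ⟨_, h2, rfl⟩

end Pool.Agent.MP_a5588a_al

end
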